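import Pool.Agent.H18.CGR.Stmts

/-!
Row GRD of board cgr: cyclic coefficients give a cyclic gradient.
-/

set_option autoImplicit false

noncomputable section

namespace Pool.CGR

theorem grd_split {α : Type} (W : List α) (k : ℕ) (i : α) (h : W[k]? = some i) :
    W.take k ++ i :: W.drop (k + 1) = W := by
  obtain ⟨hk, hi⟩ := List.getElem?_eq_some_iff.1 h
  rw [← hi, ← List.drop_eq_getElem_cons hk, List.take_append_drop]

/-- the coefficient of a word -/
def grdC {m : ℕ} (c : Fin m → List (Fin m) → ℂ) : List (Fin m) → ℂ
  | [] => 0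
  | a :: u => c a u

theorem grd_rot {m : ℕ} (c : Fin m → List (Fin m) → ℂ)
    (hc : ∀ (a b : Fin m) (u v : List (Fin m)), a :: u = v ++ [b] → c a u = c b v)
    (q : List (Fin m)) : ∀ p : List (Fin m), grdC c (p ++ q) = grdC c (q ++ p) := by
  have h1 : ∀ (v : List (Fin m)) (b : Fin m), grdC c (v ++ [b]) = grdC c (b :: v) := by
    intro v b
    cases v with
    | nil => rfl
    | cons a u => exact hc a b (u ++ [b]) (a :: u) rfl
  induction q using List.reverseRecOn with
  | nil =>
    intro p
    simp
  | append_singleton q b ih =>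
    intro p
    rw [← List.append_assoc, h1, ← List.cons_append, ih (b :: p)]
    congr 1
    simp

theorem grd_main {m : ℕ} (c : Fin m → List (Fin m) → ℂ)
    (hc : ∀ (a b : Fin m) (u v : List (Fin m)), a :: u = v ++ [b] → c a u = c b v)
    (A : Type) [Ring A] [Algebra ℂ A] (x : Fin m → A) (i : Fin m) (n : ℕ) :
    ∑ W ∈ wds m (n + 1), (grdC c W / (W.length : ℂ)) • cg x i W =
      ∑ w ∈ wds m n, c i w • ev x w := by
  have h1 : ∀ W : List (Fin m), (grdC c W / (W.length : ℂ)) • cg x i W =
      ∑ k ∈ (Finset.range W.length).filter (fun k => W[k]? = some i),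
        (grdC c W / (W.length : ℂ)) • ev x (W.drop (k + 1) ++ W.take k) := by
    intro W
    unfold cg
    rw [Finset.smul_sum, Finset.sum_filter]
    apply Finset.sum_congr rfl
    intro k _
    split_ifs with h
    · rfl
    · exact smul_zero _
  have h2 : ∀ w : List (Fin m), c i w • ev x w =
      ∑ k ∈ Finset.range (w.length + 1), (c i w / ((w.length + 1 : ℕ) : ℂ)) • ev x w := by
    intro w
    rw [Finset.sum_const, Finset.card_range, ← Nat.cast_smul_eq_nsmul ℂ, smul_smul]
    congr 1
    have : ((w.length + 1 : ℕ) : ℂ) ≠ 0 := by exact_mod_cast Nat.succ_ne_zero w.length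
    field_simp
  rw [Finset.sum_congr rfl fun W _ => h1 W, Finset.sum_congr rfl fun w _ => h2 w,
    Finset.sum_sigma', Finset.sum_sigma']
  refine Finset.sum_bij' (fun s _ => ⟨s.1.drop (s.2 + 1) ++ s.1.take s.2, s.2⟩)
    (fun s _ => ⟨s.1.drop (s.1.length - s.2) ++ i :: s.1.take (s.1.length - s.2), s.2⟩)
    ?_ ?_ ?_ ?_ ?_
  · rintro ⟨W, k⟩ hs
    simp only [Finset.mem_sigma, Finset.mem_filter, Finset.mem_range, mem_wds] at hs ⊢
    obtain ⟨hW, hk, -⟩ := hs
    rw [List.length_append, List.length_drop, List.length_take, min_eq_left hk.le]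
    omega
  · rintro ⟨w, k⟩ hs
    simp only [Finset.mem_sigma, Finset.mem_filter, Finset.mem_range, mem_wds] at hs ⊢
    obtain ⟨hw, hk⟩ := hs
    have hl : (w.drop (w.length - k)).length = k := by
      rw [List.length_drop]
      omega
    refine ⟨?_, ?_, ?_⟩
    · rw [List.length_append, hl, List.length_cons, List.length_take, min_eq_left (by omega)]
      omega
    · rw [List.length_append, hl, List.length_cons]
      omega
    · rw [List.getElem?_append_right (by omega), hl, Nat.sub_self]
      rfl
  · rintro ⟨W, k⟩ hs
    simp only [Finset.mem_sigma, Finset.mem_filter, Finset.mem_range, mem_wds] at hs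
    obtain ⟨hW, hk, hi⟩ := hs
    have hsp := grd_split W k i hi
    have e1 : (W.drop (k + 1) ++ W.take k).length - k = (W.drop (k + 1)).length := by
      rw [List.length_append, List.length_take, min_eq_left hk.le]
      omega
    simp only
    rw [e1, List.drop_left, List.take_left, hsp]
  · rintro ⟨w, k⟩ hs
    simp only [Finset.mem_sigma, Finset.mem_filter, Finset.mem_range, mem_wds] at hs
    obtain ⟨hw, hk⟩ := hs
    have hl : (w.drop (w.length - k)).length = k := by
      rw [List.length_drop]
      omega
    have e1 : (w.drop (w.length - k) ++ i :: w.take (w.length - k)).drop (k + 1) =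
        w.take (w.length - k) := by
      have : (w.drop (w.length - k) ++ i :: w.take (w.length - k)) =
          (w.drop (w.length - k) ++ [i]) ++ w.take (w.length - k) := by simp
      rw [this]
      apply List.drop_left'
      rw [List.length_append, hl]
      rfl
    have e2 : (w.drop (w.length - k) ++ i :: w.take (w.length - k)).take k =
        w.drop (w.length - k) := List.take_left' hl
    simp only
    rw [e1, e2, List.take_append_drop]
  · rintro ⟨W, k⟩ hs
    simp only [Finset.mem_sigma, Finset.mem_filter, Finset.mem_range, mem_wds] at hs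
    obtain ⟨hW, hk, hi⟩ := hs
    have hsp := grd_split W k i hi
    have e1 : (W.drop (k + 1) ++ W.take k).length + 1 = W.length := by
      rw [List.length_append, List.length_drop, List.length_take, min_eq_left hk.le]
      omega
    have e2 : grdC c W = c i (W.drop (k + 1) ++ W.take k) := by
      conv_lhs => rw [← hsp]
      rw [grd_rot c hc]
      rfl
    simp only
    rw [e1, e2]

theorem grd_thm : GRDStmt := by
  intro m c hc
  refine ⟨fun n => ∑ W ∈ wds m (n + 1), Finsupp.single W (grdC c W / (W.length : ℂ)), ?_⟩
  intro A _ _ x i n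
  rw [← grd_main c hc A x i n]
  rw [← Finsupp.sum_finsetSum_index]
  · apply Finset.sum_congr rfl
    intro W _
    rw [Finsupp.sum_single_index]
    exact zero_smul _ _
  · intro w
    exact zero_smul _ _
  · intro w r s
    exact add_smul _ _ _

end Pool.CGR
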